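import Pool.Agent.Helper11.M3.Goals4
import Pool.Agent.Helper17.PP0.SML
import Pool.Agent.Helper22.PP.CDEC
import Pool.Agent.Helper83.PP.CLAB

/-!
# Project M3 (MP_fc6b1e_nt, step 2), packet Q_SML: the small moduli
-/

set_option autoImplicit false

namespace Pool.Agent.Helper54.M3.QSML

open Finset Pool.Agent.Helper17.PP Pool.Agent.Helper17.PP0 Pool.Agent.Helper17.PP2
open Pool.Agent.Helper11.M3
open Pool.Agent.Helper17.PP0.SML (AA ff AA_nonneg AA_le ff_nonneg ff_le AA_congr ff_congr N_pos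
  nm_pos le_nm nm_lt mem_upto mem_below mem_blk bl_pos N_lt le_N log_bd filter_le Good HH
  HH_nonneg stepC)

open Classical in
/-- the hypotheses which are used -/
structure HS {p : ℕ} {B B₀ k U Λ C : Type} [Field k] [Fintype k] [Algebra (ZMod p) k]
    [AddCommGroup U] [Module k U]
    [AddCommGroup Λ] [Module k Λ] [AddCommGroup C] (S : Sys p B B₀ k U Λ C) (ψ : AddChar k ℂ)
    (g : ℝ → ℝ) (K : ℕ) : Prop extends HypW S ψ g K where
  sm : ∀ (D : Finset B) (y : B → k) (χ : AddChar Λ ℂ) (n : ℕ), 1 ≤ n →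
    (∀ q ∈ D, S.spl q ∧ y q ≠ 0) → Set.InjOn S.bs (D : Set B) → (D.Nonempty ∨ χ ≠ 1) →
    (∀ x : U, S.fU ψ χ D y x = 1) →
    (1 / K : ℝ) * Real.log n - K * Real.log (Real.log (S.nm D + 3)) - K ≤
      ∑ q ∈ S.below n with (S.spl q ∧ (∀ q' ∈ D, S.bs q' ≠ S.bs q) ∧
        ∃ t : k, S.fB ψ χ D y q t ≠ 1), (1 : ℝ) / S.N q

section inner

variable {p : ℕ} [Fact p.Prime] {B B₀ k U Λ C : Type} [Field k] [Fintype k] [Algebra (ZMod p) k]
    [AddCommGroup U] [Module k U] [Fintype U] [AddCommGroup Λ] [Module k Λ] [Fintype Λ]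
    [AddCommGroup C] {S : Sys p B B₀ k U Λ C} {ψ : AddChar k ℂ}
    {g : ℝ → ℝ} {K : ℕ}


lemma exp_bd (H : HS S ψ g K) {j I : ℕ} {X : ℝ} (hX : 1 ≤ X) {q : B} (hq : S.bl q = j)
    {D : Finset B} (hD1 : ∀ q' ∈ D, S.spl q') (hD2 : Set.InjOn S.bs (D : Set B))
    (hDI : S.nm D < 2 ^ I) (χ : AddChar Λ ℂ) (hc : D.Nonempty ∨ χ ≠ 1) {y : B → k}
    (hy : ∀ q' ∈ D, y q' ≠ 0) (hU : ∀ x : U, S.fU ψ χ D y x = 1) :
    Real.exp (∑ q'' ∈ S.upto (X / ((S.N q : ℝ) * S.nm D)), (ff S ψ j D χ y q'' - 1) / S.N q'') ≤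
      ((max 1 (min j (lg X - (j + 1 + I))) : ℕ) : ℝ) ^ (-(1 / K : ℝ)) *
        (((I : ℝ) + 2) ^ K * Real.exp K) := by
  classical
  set n := min j (lg X - (j + 1 + I)) with hn
  have hnm : 1 ≤ S.nm D := nm_pos S D
  obtain ⟨hl1, hl2⟩ := log_bd hDI hnm
  have hK1 : (1 : ℝ) ≤ K := by exact_mod_cast H.one_le
  have hsum : ∑ q'' ∈ S.upto (X / ((S.N q : ℝ) * S.nm D)), (ff S ψ j D χ y q'' - 1) / S.N q'' ≤
      0 := by
    refine Finset.sum_nonpos fun q'' _ => ?_
    exact div_nonpos_of_nonpos_of_nonneg (by linarith [ff_le S ψ j D χ y q''])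
      (Nat.cast_nonneg _)
  have hI0 : (0 : ℝ) ≤ I := Nat.cast_nonneg _
  have hpow1 : (1 : ℝ) ≤ ((I : ℝ) + 2) ^ K := one_le_pow₀ (by linarith)
  have hexp1 : (1 : ℝ) ≤ Real.exp K := Real.one_le_exp (by positivity)
  rcases Nat.eq_zero_or_pos n with h0 | hpos
  · rw [h0]
    have h1 : ((max 1 0 : ℕ) : ℝ) = 1 := by norm_num
    rw [h1, Real.one_rpow, one_mul]
    calc Real.exp _ ≤ 1 := Real.exp_le_one_iff.2 hsum
      _ ≤ _ := one_le_mul_of_one_le_of_one_le hpow1 hexp1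
  · have hmax : max 1 n = n := max_eq_right hpos
    rw [hmax]
    have hn1 : (1 : ℝ) ≤ n := by exact_mod_cast hpos
    have hsm := H.sm D y χ n hpos (fun q' hq' => ⟨hD1 q' hq', hy q' hq'⟩) hD2 hc hU
    -- the primes of `below n`
    have hnj : n ≤ j := min_le_left _ _
    have hnl : n + (j + 1 + I) ≤ lg X := by
      have h2 : n ≤ lg X - (j + 1 + I) := min_le_right _ _
      omega
    have hNq : (S.N q : ℝ) * S.nm D ≤ 2 ^ (j + 1 + I) := by
      have h3 : S.N q * S.nm D ≤ 2 ^ (j + 1) * 2 ^ I := by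
        apply Nat.mul_le_mul
        · have := N_lt S q
          rw [hq] at this
          exact this.le
        · exact hDI.le
      rw [← pow_add] at h3
      exact_mod_cast h3
    have hNpos : (0 : ℝ) < (S.N q : ℝ) * S.nm D := by
      have h4 : (0 : ℝ) < S.N q := by exact_mod_cast N_pos S q
      have h5 : (0 : ℝ) < S.nm D := by exact_mod_cast nm_pos S D
      positivity
    have hXlg : (2 : ℝ) ^ (lg X) ≤ X := by
      have h6 : 2 ^ (lg X) ≤ ⌊X⌋₊ := by
        unfold lg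
        apply Nat.pow_log_le_self
        have : 1 ≤ ⌊X⌋₊ := Nat.le_floor (by simpa using hX)
        omega
      calc (2 : ℝ) ^ (lg X) = ((2 ^ (lg X) : ℕ) : ℝ) := by push_cast; rfl
        _ ≤ (⌊X⌋₊ : ℝ) := by exact_mod_cast h6
        _ ≤ X := Nat.floor_le (by linarith)
    have hY : (2 : ℝ) ^ n ≤ X / ((S.N q : ℝ) * S.nm D) := by
      rw [le_div_iff₀ hNpos]
      calc (2 : ℝ) ^ n * ((S.N q : ℝ) * S.nm D) ≤ 2 ^ n * 2 ^ (j + 1 + I) := by gcongr
        _ = 2 ^ (n + (j + 1 + I)) := by rw [← pow_add]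
        _ ≤ 2 ^ (lg X) := pow_le_pow_right₀ (by norm_num) hnl
        _ ≤ X := hXlg
    have hYpos : (0 : ℝ) ≤ X / ((S.N q : ℝ) * S.nm D) := (by positivity : (0 : ℝ) ≤ 2 ^ n).trans hY
    have hcmp : (∑ q'' ∈ S.below n with (S.spl q'' ∧ (∀ q' ∈ D, S.bs q' ≠ S.bs q'') ∧
        ∃ t : k, S.fB ψ χ D y q'' t ≠ 1), (1 : ℝ) / S.N q'') ≤
        ∑ q'' ∈ S.upto (X / ((S.N q : ℝ) * S.nm D)), (1 - ff S ψ j D χ y q'') / S.N q'' := by
      refine le_trans (Finset.sum_le_sum (g := fun q'' => (1 - ff S ψ j D χ y q'') / S.N q'') ?_)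
        (Finset.sum_le_sum_of_subset_of_nonneg ?_ ?_)
      · intro q'' hq''
        rw [mem_filter, mem_below] at hq''
        have h7 : ff S ψ j D χ y q'' = 0 := by
          unfold ff
          rw [if_pos]
          exact ⟨hq''.2.1, hq''.2.2.1, lt_of_lt_of_le hq''.1 hnj, hq''.2.2.2⟩
        simp only [h7]
        norm_num
      · intro q'' hq''
        rw [mem_filter, mem_below] at hq''
        rw [mem_upto S hYpos]
        refine le_trans ?_ hY
        have h8 : S.N q'' ≤ 2 ^ n :=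
          (N_lt S q'').le.trans (Nat.pow_le_pow_right two_pos hq''.1)
        exact_mod_cast h8
      · intro q'' _ _
        exact div_nonneg (by linarith [ff_le S ψ j D χ y q'']) (Nat.cast_nonneg _)
    have hneg : ∑ q'' ∈ S.upto (X / ((S.N q : ℝ) * S.nm D)), (ff S ψ j D χ y q'' - 1) / S.N q'' =
        - ∑ q'' ∈ S.upto (X / ((S.N q : ℝ) * S.nm D)), (1 - ff S ψ j D χ y q'') / S.N q'' := by
      rw [← Finset.sum_neg_distrib]
      exact Finset.sum_congr rfl fun q'' _ => by ring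
    have hle : ∑ q'' ∈ S.upto (X / ((S.N q : ℝ) * S.nm D)), (ff S ψ j D χ y q'' - 1) / S.N q'' ≤
        Real.log n * (-(1 / K : ℝ)) + (K * Real.log (Real.log (S.nm D + 3)) + K) := by
      rw [hneg]
      have := hsm.trans hcmp
      linarith
    refine (Real.exp_le_exp.2 hle).trans ?_
    rw [Real.exp_add, Real.exp_add, ← Real.rpow_def_of_pos (by linarith : (0 : ℝ) < n)]
    refine mul_le_mul_of_nonneg_left ?_ (Real.rpow_nonneg (by linarith) _)
    refine mul_le_mul_of_nonneg_right ?_ (Real.exp_nonneg _)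
    rw [Real.exp_nat_mul, Real.exp_log hl1]
    exact pow_le_pow_left₀ hl1.le hl2 K

open Classical in
lemma rsum (H : HS S ψ g K) {j I : ℕ} {X : ℝ} (hX : 1 ≤ X) {q : B} (hq : S.bl q = j)
    {D : Finset B} (hD1 : ∀ q' ∈ D, S.spl q') (hD2 : Set.InjOn S.bs (D : Set B))
    (hDI : S.nm D < 2 ^ I) (χ : AddChar Λ ℂ) (hc : D.Nonempty ∨ χ ≠ 1) {y : B → k}
    (hy : ∀ q' ∈ D, y q' ≠ 0) (hU : ∀ x : U, S.fU ψ χ D y x = 1) (P : Finset B) :
    ∑ r ∈ P.powerset, (∏ q'' ∈ r, ff S ψ j D χ y q'') *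
        Real.exp (-(((S.N q : ℝ) * S.nm D * S.nm r) / X)) ≤
      K * (X / ((S.N q : ℝ) * S.nm D) * min 1 (X / 2 ^ j) * (K * g X)) *
        (((max 1 (min j (lg X - (j + 1 + I))) : ℕ) : ℝ) ^ (-(1 / K : ℝ)) *
        (((I : ℝ) + 2) ^ K * Real.exp K)) := by
  have hNq : (1 : ℝ) ≤ S.N q := by exact_mod_cast N_pos S q
  have hnD : (1 : ℝ) ≤ S.nm D := by exact_mod_cast nm_pos S D
  have hT : (1 : ℝ) ≤ (S.N q : ℝ) * S.nm D := one_le_mul_of_one_le_of_one_le hNq hnD
  set T : ℝ := (S.N q : ℝ) * S.nm D with hTdef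
  have hYpos : 0 < X / T := by positivity
  have hht := H.ht (fun q'' => ff S ψ j D χ y q'') (fun q'' => ⟨ff_nonneg S ψ j D χ y q'', by
    have h1 := ff_le S ψ j D χ y q''
    have h2 : (0 : ℝ) ≤ Fintype.card k := Nat.cast_nonneg _
    linarith⟩) (X / T) hYpos P
  have hrew : ∀ r : Finset B, ((S.N q : ℝ) * S.nm D * S.nm r) / X = (S.nm r : ℝ) / (X / T) := by
    intro r
    rw [hTdef]
    field_simp
  have h1 : ∑ r ∈ P.powerset, (∏ q'' ∈ r, ff S ψ j D χ y q'') *
        Real.exp (-((T * S.nm r) / X)) =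
      ∑ r ∈ P.powerset, (∏ q'' ∈ r, ff S ψ j D χ y q'') * Real.exp (-((S.nm r : ℝ) / (X / T))) := by
    refine Finset.sum_congr rfl fun r _ => ?_
    rw [hTdef, hrew r]
  rw [h1]
  refine hht.trans ?_
  have hexp := exp_bd H hX hq hD1 hD2 hDI χ hc hy hU
  have hg1 : 1 ≤ g (X / T) := H.g_one _
  have hgX : 1 ≤ g X := H.g_one _
  have hYX : X / T ≤ X := div_le_self (by linarith) hT
  have hg2 : g (X / T) ≤ K * g X := H.g_mono _ _ hYX
  have hN2 : (2 : ℝ) ^ j ≤ T := by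
    have h3 : 2 ^ j ≤ S.N q := by rw [← hq]; exact le_N S q
    have h4 : (2 : ℝ) ^ j ≤ S.N q := by exact_mod_cast h3
    rw [hTdef]
    nlinarith
  have hY2 : X / T ≤ X / 2 ^ j := by
    gcongr
  have hmin : min 1 (X / T) ≤ min 1 (X / 2 ^ j) := min_le_min le_rfl hY2
  have hmin0 : 0 ≤ min 1 (X / T) := le_min zero_le_one hYpos.le
  have hK0 : (0 : ℝ) ≤ K := Nat.cast_nonneg _
  refine mul_le_mul ?_ hexp (Real.exp_nonneg _) ?_
  · refine mul_le_mul_of_nonneg_left ?_ hK0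
    refine mul_le_mul ?_ hg2 (by linarith) ?_
    · exact mul_le_mul_of_nonneg_left hmin hYpos.le
    · exact mul_nonneg hYpos.le (hmin0.trans hmin)
  · refine mul_nonneg hK0 (mul_nonneg (mul_nonneg hYpos.le (hmin0.trans hmin)) ?_)
    exact mul_nonneg hK0 (by linarith)

open Classical in
lemma below_sum (H : HS S ψ g K) (I : ℕ) :
    ∑ q ∈ S.below I, (1 : ℝ) / S.N q ≤ K * (1 + Real.log ((I : ℝ) + 2)) := by
  have hK0 : (0 : ℝ) ≤ K := Nat.cast_nonneg _
  have h1 : ∑ q ∈ S.below I, (1 : ℝ) / S.N q =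
      ∑ m ∈ range (I + 1), ∑ q ∈ S.below I with S.bl q = m, (1 : ℝ) / S.N q := by
    rw [Finset.sum_fiberwise_of_maps_to]
    intro q hq
    rw [mem_below] at hq
    rw [mem_range]; omega
  have h2 : ∀ m ∈ range (I + 1), ∑ q ∈ S.below I with S.bl q = m, (1 : ℝ) / S.N q ≤
      (K : ℝ) / m := by
    intro m _
    rcases Nat.eq_zero_or_pos m with h0 | hm
    · subst h0
      have h3 : (S.below I).filter (fun q => S.bl q = 0) = ∅ := by
        rw [Finset.filter_eq_empty_iff]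
        intro q _ h4
        have := bl_pos S q
        omega
      rw [h3]; simp
    · refine le_trans (Finset.sum_le_sum_of_subset_of_nonneg ?_ ?_) (H.che m hm)
      · intro q hq
        rw [mem_filter] at hq
        rw [mem_blk]
        exact hq.2
      · intro q _ _
        positivity
  rw [h1]
  refine (Finset.sum_le_sum h2).trans ?_
  rw [Finset.sum_range_succ']
  have h5 : ∑ i ∈ range I, (K : ℝ) / ((i + 1 : ℕ) : ℝ) = K * ((harmonic I : ℚ) : ℝ) := by
    rw [harmonic]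
    push_cast
    rw [Finset.mul_sum]
    exact Finset.sum_congr rfl fun i _ => by rw [div_eq_mul_inv]
  rw [h5]
  have h6 := harmonic_le_one_add_log I
  have h7 : Real.log (I : ℝ) ≤ Real.log ((I : ℝ) + 2) := by
    rcases Nat.eq_zero_or_pos I with h0 | hI
    · subst h0
      simp only [Nat.cast_zero, Real.log_zero, zero_add]
      exact Real.log_nonneg (by norm_num)
    · apply Real.log_le_log
      · exact_mod_cast hI
      · linarith
  simp only [Nat.cast_zero, div_zero, add_zero]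
  exact mul_le_mul_of_nonneg_left (by linarith) hK0

open Classical in
lemma Dsum (hdec : C_DEC) (H : HS S ψ g K) (I : ℕ) :
    ∑ D ∈ (S.below I).powerset, (Fintype.card k : ℝ) ^ D.card / S.nm D ≤
      Real.exp (Fintype.card k * K) * ((I : ℝ) + 2) ^ (Fintype.card k * K) := by
  have hQ0 : (0 : ℝ) ≤ Fintype.card k := Nat.cast_nonneg _
  have hI0 : (0 : ℝ) < (I : ℝ) + 2 := by positivity
  have h1 : ∑ D ∈ (S.below I).powerset, (Fintype.card k : ℝ) ^ D.card / S.nm D =
      ∑ D ∈ (S.below I).powerset, ∏ q ∈ D, ((Fintype.card k : ℝ) / S.N q) := by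
    refine Finset.sum_congr rfl fun D _ => ?_
    rw [Finset.prod_div_distrib, Finset.prod_const, Sys.nm]
    push_cast
    rfl
  rw [h1, (hdec B (S.below I)).2.2]
  have h2 : ∏ q ∈ S.below I, (1 + (Fintype.card k : ℝ) / S.N q) ≤
      ∏ q ∈ S.below I, Real.exp ((Fintype.card k : ℝ) / S.N q) := by
    refine Finset.prod_le_prod (fun q _ => by positivity) (fun q _ => ?_)
    rw [add_comm]
    exact Real.add_one_le_exp _
  refine h2.trans ?_
  rw [← Real.exp_sum]
  have h3 : ∑ q ∈ S.below I, (Fintype.card k : ℝ) / S.N q ≤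
      Fintype.card k * K + Real.log ((I : ℝ) + 2) * ((Fintype.card k * K : ℕ) : ℝ) := by
    have h4 : ∑ q ∈ S.below I, (Fintype.card k : ℝ) / S.N q =
        Fintype.card k * ∑ q ∈ S.below I, (1 : ℝ) / S.N q := by
      rw [Finset.mul_sum]
      exact Finset.sum_congr rfl fun q _ => by ring
    rw [h4]
    have h5 := mul_le_mul_of_nonneg_left (below_sum H I) hQ0
    push_cast
    linarith
  refine (Real.exp_le_exp.2 h3).trans (le_of_eq ?_)
  rw [Real.exp_add, ← Real.rpow_def_of_pos hI0, Real.rpow_natCast]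

end inner
section final

variable {p : ℕ} [Fact p.Prime] {B B₀ k U Λ C : Type} [Field k] [Fintype k] [Algebra (ZMod p) k]
    [AddCommGroup U] [Module k U] [Fintype U] [AddCommGroup Λ] [Module k Λ] [Fintype Λ]
    [AddCommGroup C] (S : Sys p B B₀ k U Λ C)

open Classical in
lemma stepD {ψ : AddChar k ℂ} {g : ℝ → ℝ} {K : ℕ}
    (hlab : C_LAB) (H : HS S ψ g K) {j I : ℕ} {X : ℝ} (hX : 1 ≤ X) (P : Finset B) (q : B)
    (hj : S.bl q = j) (D : Finset B) (hD : Good S I D) :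
    ∑ r ∈ P.powerset, HH S ψ j I X P q D r ≤
      (Fintype.card Λ * (Fintype.card U * Fintype.card k * (Fintype.card k : ℝ) ^ D.card)) *
      (K * (X / ((S.N q : ℝ) * S.nm D) * min 1 (X / 2 ^ j) * (K * g X)) *
        (((max 1 (min j (lg X - (j + 1 + I))) : ℕ) : ℝ) ^ (-(1 / K : ℝ)) *
        (((I : ℝ) + 2) ^ K * Real.exp K))) := by
  set R : ℝ := (K * (X / ((S.N q : ℝ) * S.nm D) * min 1 (X / 2 ^ j) * (K * g X)) *
        (((max 1 (min j (lg X - (j + 1 + I))) : ℕ) : ℝ) ^ (-(1 / K : ℝ)) *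
        (((I : ℝ) + 2) ^ K * Real.exp K))) with hR
  have hgX : 1 ≤ g X := H.g_one _
  have hR0 : 0 ≤ R := by
    rw [hR]
    have h1 : (0 : ℝ) ≤ min 1 (X / 2 ^ j) := le_min zero_le_one (by positivity)
    positivity
  have hL : (0 : ℝ) < (lab k P).card := by
    rw [(hlab B k P).1]
    have : 0 < Fintype.card k ^ P.card := pow_pos Fintype.card_pos _
    exact_mod_cast this
  set c : ℝ := (Fintype.card U * Fintype.card k * (Fintype.card k : ℝ) ^ D.card) with hc
  have hc0 : 0 ≤ c := by rw [hc]; positivity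
  have h1 : ∑ r ∈ P.powerset, HH S ψ j I X P q D r =
      ∑ χ : AddChar Λ ℂ with (D.Nonempty ∨ χ ≠ 1), (c / (lab k P).card) *
        ∑ y ∈ lab k P, AA S ψ D χ y * ∑ r ∈ P.powerset, ((∏ q'' ∈ r, ff S ψ j D χ y q'') *
        Real.exp (-(((S.N q : ℝ) * S.nm D * S.nm r) / X))) := by
    have h2 : ∀ r ∈ P.powerset, HH S ψ j I X P q D r =
        ∑ χ : AddChar Λ ℂ with (D.Nonempty ∨ χ ≠ 1), (c / (lab k P).card) *
        ∑ y ∈ lab k P, AA S ψ D χ y * ((∏ q'' ∈ r, ff S ψ j D χ y q'') *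
        Real.exp (-(((S.N q : ℝ) * S.nm D * S.nm r) / X))) := by
      intro r _
      unfold HH
      rw [if_pos ⟨hj, hD⟩]
    rw [Finset.sum_congr rfl h2, Finset.sum_comm]
    refine Finset.sum_congr rfl fun χ _ => ?_
    rw [← Finset.mul_sum, Finset.sum_comm]
    congr 1
    refine Finset.sum_congr rfl fun y _ => ?_
    rw [Finset.mul_sum]
  rw [h1]
  have h3 : ∀ χ ∈ (univ : Finset (AddChar Λ ℂ)).filter (fun χ => D.Nonempty ∨ χ ≠ 1),
      (c / (lab k P).card) *
        ∑ y ∈ lab k P, AA S ψ D χ y * ∑ r ∈ P.powerset, ((∏ q'' ∈ r, ff S ψ j D χ y q'') *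
        Real.exp (-(((S.N q : ℝ) * S.nm D * S.nm r) / X))) ≤ c * R := by
    intro χ hχ
    rw [mem_filter] at hχ
    have h4 : ∑ y ∈ lab k P, AA S ψ D χ y * ∑ r ∈ P.powerset, ((∏ q'' ∈ r, ff S ψ j D χ y q'') *
        Real.exp (-(((S.N q : ℝ) * S.nm D * S.nm r) / X))) ≤ ∑ y ∈ lab k P, R := by
      refine Finset.sum_le_sum fun y _ => ?_
      by_cases hy : (∀ q' ∈ D, y q' ≠ 0) ∧ (∀ x : U, S.fU ψ χ D y x = 1)
      · have h5 : AA S ψ D χ y = 1 := by unfold AA; rw [if_pos hy]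
        rw [h5, one_mul]
        exact rsum H hX hj hD.1 hD.2.1 hD.2.2 χ hχ.2 hy.1 hy.2 P
      · have h5 : AA S ψ D χ y = 0 := by unfold AA; rw [if_neg hy]
        rw [h5, zero_mul]
        exact hR0
    rw [Finset.sum_const, nsmul_eq_mul] at h4
    calc _ ≤ (c / (lab k P).card) * ((lab k P).card * R) :=
          mul_le_mul_of_nonneg_left h4 (by positivity)
      _ = c * R := by field_simp
  refine (Finset.sum_le_sum h3).trans ?_
  rw [Finset.sum_const, nsmul_eq_mul]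
  have h6 : ((((univ : Finset (AddChar Λ ℂ)).filter (fun χ => D.Nonempty ∨ χ ≠ 1)).card : ℕ) : ℝ) ≤
      Fintype.card Λ := by
    have h7 : ((univ : Finset (AddChar Λ ℂ)).filter (fun χ => D.Nonempty ∨ χ ≠ 1)).card ≤
        Fintype.card Λ := by
      refine (Finset.card_filter_le _ _).trans ?_
      rw [Finset.card_univ]
      exact (AddChar.card_eq).le
    exact_mod_cast h7
  calc _ ≤ (Fintype.card Λ : ℝ) * (c * R) := mul_le_mul_of_nonneg_right h6 (by positivity)
    _ = _ := by ring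

open Classical in
/-- the term for `D` and `χ` -/
noncomputable def TT (ψ : AddChar k ℂ) (P b : Finset B) (q : B) (D : Finset B)
    (χ : AddChar Λ ℂ) : ℝ :=
  (Fintype.card U * (Fintype.card k : ℝ) ^ D.card / (lab k P).card) *
    ∑ y ∈ lab k P, AA S ψ D χ y * ∏ q'' ∈ (b.erase q) \ D, ff S ψ (S.bl q) D χ y q''

open Classical in
lemma fib_le (hlab : C_LAB) (ψ : AddChar k ℂ) (I : ℕ)
    (P b : Finset B) (q P₁ : B) (hbP : b ⊆ P)
    (hlow : ∀ q'' ∈ b, S.spl q'' → S.bl q'' < S.bl q → q'' ≠ P₁)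
    (D : Finset B) (hD : D ⊆ sp S b q P₁) (χ : AddChar Λ ℂ) :
    (Fintype.card U * (Fintype.card k : ℝ) ^ (rs₄ S b q P₁).card / (lab k P).card) *
      ((((lab k P).filter fun y ↦
        (((sp S b q P₁).filter fun q' ↦ y q' ≠ 0).Nonempty ∨ χ ≠ 1) ∧
        S.nm ((sp S b q P₁).filter fun q' ↦ y q' ≠ 0) < 2 ^ (2 * I) ∧
        (∀ x : U, S.fU ψ χ ((sp S b q P₁).filter fun q' ↦ y q' ≠ 0) y x = 1) ∧
        ∀ q'' ∈ rs₄ S b q P₁, y q'' = 0 → ∀ z : k,
          S.fB ψ χ ((sp S b q P₁).filter fun q' ↦ y q' ≠ 0) y q'' z = 1).filter fun y ↦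
          ((sp S b q P₁).filter fun q' ↦ y q' ≠ 0) = D).card : ℝ) ≤
      if S.nm D < 2 ^ (2 * I) ∧ (D.Nonempty ∨ χ ≠ 1) then TT S ψ P b q D χ else 0 := by
  obtain ⟨hl1, -, -, hl4, -⟩ := hlab B k P
  by_cases hcond : S.nm D < 2 ^ (2 * I) ∧ (D.Nonempty ∨ χ ≠ 1)
  swap
  · rw [if_neg hcond]
    have h0 : (((lab k P).filter fun y ↦
        (((sp S b q P₁).filter fun q' ↦ y q' ≠ 0).Nonempty ∨ χ ≠ 1) ∧
        S.nm ((sp S b q P₁).filter fun q' ↦ y q' ≠ 0) < 2 ^ (2 * I) ∧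
        (∀ x : U, S.fU ψ χ ((sp S b q P₁).filter fun q' ↦ y q' ≠ 0) y x = 1) ∧
        ∀ q'' ∈ rs₄ S b q P₁, y q'' = 0 → ∀ z : k,
          S.fB ψ χ ((sp S b q P₁).filter fun q' ↦ y q' ≠ 0) y q'' z = 1).filter fun y ↦
          ((sp S b q P₁).filter fun q' ↦ y q' ≠ 0) = D) = ∅ := by
      rw [Finset.filter_eq_empty_iff]
      intro y hy hyD
      rw [mem_filter] at hy
      apply hcond
      rw [← hyD]
      exact ⟨hy.2.2.1, hy.2.1⟩
    rw [h0]
    simp
  rw [if_pos hcond]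
  set D' := sp S b q P₁ \ D with hD'
  have hspb : sp S b q P₁ ⊆ b.erase q := by
    unfold sp
    exact (filter_subset _ _).trans (erase_subset _ _)
  have hD'P : D' ⊆ P := (sdiff_subset.trans hspb).trans ((erase_subset _ _).trans hbP)
  set F : (B → k) → ℝ := fun y => AA S ψ D χ y *
    ∏ q'' ∈ (b.erase q) \ D, ff S ψ (S.bl q) D χ y q'' with hF
  have hF0 : ∀ y, 0 ≤ F y := fun y =>
    mul_nonneg (AA_nonneg S ψ D χ y) (Finset.prod_nonneg fun q _ => ff_nonneg S ψ _ D χ y q)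
  have hFinv : ∀ f ∈ lab k P, ∀ z ∈ lab k D', ((F (f + z) : ℝ) : ℂ) = ((F f : ℝ) : ℂ) := by
    intro f _ z hz
    have h1 : ∀ q ∈ D, (f + z) q = f q := by
      intro q hq
      have h2 : z q = 0 := mem_lab.1 hz q (by
        rw [hD', mem_sdiff]; exact fun h => h.2 hq)
      simp [h2]
    simp only [hF]
    rw [AA_congr S ψ D χ h1]
    congr 2
    exact Finset.prod_congr rfl fun q _ => ff_congr S ψ _ D χ h1 q
  have h4 := hl4 (fun y => ((F y : ℝ) : ℂ)) D' hD'P hFinv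
  have h5 : (Fintype.card k : ℝ) ^ D'.card * ∑ f ∈ lab k P with (∀ q ∈ D', f q = 0), F f =
      ∑ f ∈ lab k P, F f := by
    exact_mod_cast h4
  -- the cardinality
  have h6 : ((((lab k P).filter fun y ↦
        (((sp S b q P₁).filter fun q' ↦ y q' ≠ 0).Nonempty ∨ χ ≠ 1) ∧
        S.nm ((sp S b q P₁).filter fun q' ↦ y q' ≠ 0) < 2 ^ (2 * I) ∧
        (∀ x : U, S.fU ψ χ ((sp S b q P₁).filter fun q' ↦ y q' ≠ 0) y x = 1) ∧
        ∀ q'' ∈ rs₄ S b q P₁, y q'' = 0 → ∀ z : k,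
          S.fB ψ χ ((sp S b q P₁).filter fun q' ↦ y q' ≠ 0) y q'' z = 1).filter fun y ↦
          ((sp S b q P₁).filter fun q' ↦ y q' ≠ 0) = D).card : ℝ) ≤
      ∑ f ∈ lab k P with (∀ q ∈ D', f q = 0), F f := by
    rw [Finset.card_eq_sum_ones]
    push_cast
    refine le_trans (Finset.sum_le_sum (g := F) ?_) (Finset.sum_le_sum_of_subset_of_nonneg ?_
      fun y _ _ => hF0 y)
    · intro y hy
      rw [mem_filter, mem_filter] at hy
      obtain ⟨⟨-, -, -, hy2, hy3⟩, hyD⟩ := hy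
      rw [hyD] at hy2 hy3
      have hA : AA S ψ D χ y = 1 := by
        unfold AA
        rw [if_pos]
        refine ⟨fun q' hq' => ?_, hy2⟩
        rw [← hyD, mem_filter] at hq'
        exact hq'.2
      have hP : ∏ q'' ∈ (b.erase q) \ D, ff S ψ (S.bl q) D χ y q'' = 1 := by
        refine Finset.prod_eq_one fun q'' hq'' => ?_
        rw [mem_sdiff] at hq''
        unfold ff
        rw [if_neg]
        rintro ⟨h7, -, h8, z, hz⟩
        apply hz
        have hne : q'' ≠ P₁ := hlow q'' (erase_subset _ _ hq''.1) h7 h8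
        have hmem : q'' ∈ (b.erase q).erase P₁ := mem_erase.2 ⟨hne, hq''.1⟩
        have hsp : q'' ∈ sp S b q P₁ := by
          unfold sp
          rw [mem_filter]
          exact ⟨hmem, h7⟩
        have hy0 : y q'' = 0 := by
          by_contra h
          apply hq''.2
          rw [← hyD, mem_filter]
          exact ⟨hsp, h⟩
        refine hy3 q'' ?_ hy0 z
        unfold rs₄
        rw [mem_filter]
        exact ⟨hmem, h7, h8⟩
      simp only [hF]
      rw [hA, hP]; norm_num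
    · intro y hy
      rw [mem_filter, mem_filter] at hy
      rw [mem_filter]
      obtain ⟨⟨hy0, -, -, -, -⟩, hyD⟩ := hy
      refine ⟨hy0, fun q' hq' => ?_⟩
      rw [hD', mem_sdiff] at hq'
      by_contra h
      apply hq'.2
      rw [← hyD, mem_filter]
      exact ⟨hq'.1, h⟩
  have hQ1 : (1 : ℝ) ≤ Fintype.card k := by
    exact_mod_cast Fintype.card_pos
  have hcard : (rs₄ S b q P₁).card ≤ D.card + D'.card := by
    have h7 : rs₄ S b q P₁ ⊆ sp S b q P₁ := by
      intro q' hq'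
      unfold rs₄ at hq'
      unfold sp
      rw [mem_filter] at hq' ⊢
      exact ⟨hq'.1, hq'.2.1⟩
    have h8 := card_le_card h7
    have h9 : D'.card + D.card = (sp S b q P₁).card := by
      rw [hD']; exact card_sdiff_add_card_eq_card hD
    omega
  have hL : (0 : ℝ) ≤ (lab k P).card := Nat.cast_nonneg _
  calc (Fintype.card U * (Fintype.card k : ℝ) ^ (rs₄ S b q P₁).card / (lab k P).card) * _
      ≤ (Fintype.card U * (Fintype.card k : ℝ) ^ (rs₄ S b q P₁).card / (lab k P).card) *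
        ∑ f ∈ lab k P with (∀ q ∈ D', f q = 0), F f :=
        mul_le_mul_of_nonneg_left h6 (by positivity)
    _ ≤ (Fintype.card U * (Fintype.card k : ℝ) ^ (D.card + D'.card) / (lab k P).card) *
        ∑ f ∈ lab k P with (∀ q ∈ D', f q = 0), F f := by
        refine mul_le_mul_of_nonneg_right ?_ (Finset.sum_nonneg fun y _ => hF0 y)
        refine div_le_div_of_nonneg_right ?_ hL
        refine mul_le_mul_of_nonneg_left ?_ (by positivity)
        exact pow_le_pow_right₀ hQ1 hcard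
    _ = (Fintype.card U * (Fintype.card k : ℝ) ^ D.card / (lab k P).card) *
        ((Fintype.card k : ℝ) ^ D'.card * ∑ f ∈ lab k P with (∀ q ∈ D', f q = 0), F f) := by
        rw [pow_add]; ring
    _ = _ := by rw [h5]; rfl

open Classical in
lemma card_fib {α β : Type} (s : Finset α) (f : α → β) (T : Finset β) (h : ∀ x ∈ s, f x ∈ T)
    (A : ℝ) (G : β → ℝ) (hG : ∀ D ∈ T, A * ((s.filter fun x => f x = D).card : ℝ) ≤ G D) :
    A * (s.card : ℝ) ≤ ∑ D ∈ T, G D := by
  rw [Finset.card_eq_sum_card_fiberwise (f := f) (t := T) (fun x hx => h x hx)]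
  push_cast
  rw [Finset.mul_sum]
  exact Finset.sum_le_sum hG

open Classical in
lemma ful_le (hlab : C_LAB) (hpsm : Q_PSM) (ψ : AddChar k ℂ) (e : B → k) (I : ℕ)
    (P b : Finset B) (q P₁ : B) (t : k) (hbP : b ⊆ P) (hwv : Wv S b q) (hP₁ : P₁ ∈ b)
    (hne : P₁ ≠ q) (hlow : ∀ q'' ∈ b, S.spl q'' → S.bl q'' < S.bl q → q'' ≠ P₁) :
    ‖ful₄ S ψ P b q P₁ t 0 0 (FA S e I b q P₁ t)‖ ≤
      ∑ D ∈ (sp S b q P₁).powerset, ∑ χ : AddChar Λ ℂ,
        if S.nm D < 2 ^ (2 * I) ∧ (D.Nonempty ∨ χ ≠ 1) then TT S ψ P b q D χ else 0 := by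
  refine (hpsm p B B₀ k U Λ C S ψ e I P b q P₁ t hbP hwv hP₁ hne).trans ?_
  rw [Finset.mul_sum, Finset.sum_comm (s := (sp S b q P₁).powerset)]
  refine Finset.sum_le_sum fun χ _ => ?_
  refine card_fib _ (fun y : B → k ↦ (sp S b q P₁).filter fun q' ↦ y q' ≠ 0) _
    (fun y _ => mem_powerset.2 (filter_subset _ _)) _ _ fun D hD => ?_
  convert fib_le S hlab ψ I P b q P₁ hbP hlow D (mem_powerset.1 hD) χ

open Classical in
lemma stepA (hlab : C_LAB) (hpsm : Q_PSM) (ψ : AddChar k ℂ) (e : B → k) (N : B → Prop)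
    (hcas : (∀ q, N q ∧ S.spl q) ∨ (∀ q, N q → ¬ S.spl q)) (j I : ℕ) (t : k) (X : ℝ)
    (P b : Finset B)
    (hbP : b ⊆ P) (hFam : S.Fam b) (q : B) (hwv : Wv S b q) (hj : S.bl q = j)
    (P₁ : B) (hpiv : Piv S N b P₁) (hne : P₁ ≠ q) :
    ‖ful₄ S ψ P b q P₁ t 0 0 (FA S e I b q P₁ t)‖ * Real.exp (-(S.nm b / X)) ≤
      ∑ D ∈ (b.erase q).powerset, HH S ψ j (2 * I) X P q D ((b.erase q) \ D) := by
  have hq : q ∈ b := hwv.mem
  have hlow : ∀ q'' ∈ b, S.spl q'' → S.bl q'' < S.bl q → q'' ≠ P₁ := by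
    intro q'' hq'' hs hlt heq
    rcases hcas with h | h
    · have h1 := hpiv.top q hq (h q).1 hne.symm
      rw [heq] at hlt
      omega
    · rw [heq] at hs
      exact h P₁ hpiv.isN hs
  have hspb : sp S b q P₁ ⊆ b.erase q := by
    unfold sp
    exact (filter_subset _ _).trans (erase_subset _ _)
  have h1 := mul_le_mul_of_nonneg_right
    (ful_le S hlab hpsm ψ e I P b q P₁ t hbP hwv hpiv.mem hne hlow)
    (Real.exp_nonneg (-((S.nm b : ℝ) / X)))
  refine h1.trans ?_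
  rw [Finset.sum_mul]
  refine le_trans (Finset.sum_le_sum (g := fun D =>
      HH S ψ j (2 * I) X P q D ((b.erase q) \ D)) ?_)
    (Finset.sum_le_sum_of_subset_of_nonneg (Finset.powerset_mono.2 hspb)
      fun D _ _ => HH_nonneg S ψ j (2 * I) X P q D _)
  intro D hD
  rw [mem_powerset] at hD
  have hDb : D ⊆ b.erase q := hD.trans hspb
  by_cases hnD : S.nm D < 2 ^ (2 * I)
  swap
  · rw [Finset.sum_eq_zero]
    · rw [zero_mul]; exact HH_nonneg S ψ j (2 * I) X P q D _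
    · intro χ _
      rw [if_neg]
      exact fun h => hnD h.1
  have hgood : Good S (2 * I) D := by
    refine ⟨fun q' hq' => ?_, ?_, hnD⟩
    · have h2 := hD hq'
      unfold sp at h2
      rw [mem_filter] at h2
      exact h2.2
    · refine hFam.1.mono ?_
      intro x hx
      exact (erase_subset _ _) (hDb hx)
  unfold HH
  rw [if_pos ⟨hj, hgood⟩, Finset.sum_filter, Finset.sum_mul]
  refine Finset.sum_le_sum fun χ _ => ?_
  by_cases hc : D.Nonempty ∨ χ ≠ 1
  swap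
  · rw [if_neg (fun h => hc h.2), if_neg hc, zero_mul]
  rw [if_pos ⟨hnD, hc⟩, if_pos hc]
  have hnm : (S.nm b : ℝ) = (S.N q : ℝ) * S.nm D * S.nm ((b.erase q) \ D) := by
    have h2 : S.nm b = S.N q * S.nm D * S.nm ((b.erase q) \ D) := by
      unfold Sys.nm
      rw [← Finset.mul_prod_erase b _ hq, mul_assoc, mul_comm (∏ q ∈ D, S.N q),
        Finset.prod_sdiff hDb]
    exact_mod_cast h2
  rw [hnm]
  unfold TT
  rw [mul_assoc, Finset.sum_mul, hj]
  have hQ1 : (1 : ℝ) ≤ Fintype.card k := by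
    exact_mod_cast Fintype.card_pos
  have h3 : ∑ y ∈ lab k P, AA S ψ D χ y * (∏ q'' ∈ (b.erase q) \ D, ff S ψ j D χ y q'') *
        Real.exp (-((S.N q : ℝ) * S.nm D * S.nm ((b.erase q) \ D) / X)) =
      ∑ y ∈ lab k P, AA S ψ D χ y * ((∏ q'' ∈ (b.erase q) \ D, ff S ψ j D χ y q'') *
        Real.exp (-((S.N q : ℝ) * S.nm D * S.nm ((b.erase q) \ D) / X))) :=
    Finset.sum_congr rfl fun y _ => by ring
  rw [h3]
  refine mul_le_mul_of_nonneg_right ?_ ?_
  · refine div_le_div_of_nonneg_right ?_ (Nat.cast_nonneg _)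
    refine mul_le_mul_of_nonneg_right ?_ (by positivity)
    exact le_mul_of_one_le_right (Nat.cast_nonneg _) hQ1
  · refine Finset.sum_nonneg fun y _ => mul_nonneg (AA_nonneg S ψ D χ y) (mul_nonneg ?_ ?_)
    · exact Finset.prod_nonneg fun q _ => ff_nonneg S ψ _ D χ y q
    · exact Real.exp_nonneg _

open Classical in
lemma piv_sum_le (N : B → Prop) (b : Finset B) (q : B) (f : B → ℝ) (M : ℝ) (hM : 0 ≤ M)
    (h : ∀ P₁ ∈ b, Piv S N b P₁ → P₁ ≠ q → f P₁ ≤ M) :
    ∑ P₁ ∈ b with (Piv S N b P₁ ∧ P₁ ≠ q), f P₁ ≤ M := by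
  by_cases hex : ∃ P₁ ∈ b, Piv S N b P₁ ∧ P₁ ≠ q
  · obtain ⟨P₁, h1, h2, h3⟩ := hex
    have h4 : b.filter (fun P₁ => Piv S N b P₁ ∧ P₁ ≠ q) = {P₁} := by
      ext P'
      rw [mem_filter, mem_singleton]
      constructor
      · rintro ⟨h5, h6, h7⟩
        by_contra hne
        have h8 := h2.top P' h5 h6.isN hne
        have h9 := h6.top P₁ h1 h2.isN (Ne.symm hne)
        omega
      · rintro rfl
        exact ⟨h1, h2, h3⟩
    rw [h4, Finset.sum_singleton]
    exact h P₁ h1 h2 h3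
  · rw [Finset.sum_eq_zero]
    · exact hM
    · intro P₁ hP₁
      rw [mem_filter] at hP₁
      exact absurd ⟨P₁, hP₁.1, hP₁.2⟩ hex

open Classical in
theorem q_sml (hlab : C_LAB) (hdec : C_DEC) (hpsm : Q_PSM) : Q_SML := by
  intro p _ B B₀ k U Λ C _ _ _ _ _ _ _ _ _ _ _ S ψ e N Y g K hyp
  have H : HS S ψ g K := { hyp.toHypW with sm := hyp.sm }
  have hcas : (∀ q, N q ∧ S.spl q) ∨ (∀ q, N q → ¬ S.spl q) := by
    rcases hyp.cas with h | h
    · exact Or.inl h
    · exact Or.inr h.1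
  set c0 : ℝ := Fintype.card Λ * Fintype.card U * Fintype.card k * K ^ 3 * Real.exp K *
    Real.exp (Fintype.card k * K) with hc0
  refine ⟨max ⌈c0⌉₊ (K + Fintype.card k * K), ?_⟩
  intro I' j t X P hj hX
  set K' := max ⌈c0⌉₊ (K + Fintype.card k * K) with hK'
  obtain ⟨I, hI⟩ : ∃ I : ℕ, I = 2 * I' := ⟨_, rfl⟩
  have hIc : (2 * (I' : ℝ) + 2) = (I : ℝ) + 2 := by rw [hI]; push_cast; ring
  rw [hIc, ← hI]
  set m : ℝ := min 1 (X / 2 ^ j) with hm
  set M : ℝ := ((max 1 (min j (lg X - (j + 1 + I))) : ℕ) : ℝ) ^ (-(1 / K : ℝ)) with hM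
  have hgX : 1 ≤ g X := H.g_one _
  have hm0 : 0 ≤ m := le_min zero_le_one (by positivity)
  have hM0 : 0 ≤ M := by rw [hM]; positivity
  have hX0 : 0 < X := by linarith
  have hj0 : (0 : ℝ) < j := by exact_mod_cast hj
  have hI0 : (0 : ℝ) ≤ I := Nat.cast_nonneg _
  -- steps A, B
  have hAB : ∑ b ∈ P.powerset with S.Fam b, ∑ q ∈ b with (Wv S b q ∧ S.bl q = j),
      ∑ P₁ ∈ b with (Piv S N b P₁ ∧ P₁ ≠ q),
        ‖ful₄ S ψ P b q P₁ t 0 0 (FA S e I' b q P₁ t)‖ * Real.exp (-(S.nm b / X)) ≤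
      ∑ b ∈ P.powerset, ∑ q ∈ b, ∑ D ∈ (b.erase q).powerset,
        HH S ψ j I X P q D ((b.erase q) \ D) := by
    refine filter_le _ _ _ _ (fun b hb hFam => ?_) (fun b _ => ?_)
    · refine filter_le _ _ _ _ (fun q hq hWt => ?_) (fun q _ => ?_)
      · refine piv_sum_le S N b q _ _
          (Finset.sum_nonneg fun D _ => HH_nonneg S ψ j I X P q D _) ?_
        intro P₁ _ hpiv hne
        rw [hI]
        exact stepA S hlab hpsm ψ e N hcas j I' t X P b (mem_powerset.1 hb) hFam q hWt.1 hWt.2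
          P₁ hpiv hne
      · exact Finset.sum_nonneg fun D _ => HH_nonneg S ψ j I X P q D _
    · exact Finset.sum_nonneg fun q _ => Finset.sum_nonneg fun D _ => HH_nonneg S ψ j I X P q D _
  refine hAB.trans ?_
  refine (stepC hdec P (fun q D r => HH S ψ j I X P q D r)
    (fun q D r => HH_nonneg S ψ j I X P q D r)).trans ?_
  -- step E
  set W : ℝ := Fintype.card Λ * Fintype.card U * Fintype.card k * K ^ 2 * Real.exp K *
    ((I : ℝ) + 2) ^ K * m * M * (X * g X) with hW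
  have hW0 : 0 ≤ W := by rw [hW]; positivity
  have hE : ∑ q ∈ P, ∑ D ∈ P.powerset, ∑ r ∈ P.powerset, HH S ψ j I X P q D r ≤
      ∑ q ∈ S.blk j, ∑ D ∈ (S.below I).powerset,
        W * (1 / S.N q) * ((Fintype.card k : ℝ) ^ D.card / S.nm D) := by
    have h1 : ∀ q D, ∑ r ∈ P.powerset, HH S ψ j I X P q D r ≤
        if S.bl q = j ∧ Good S I D then
          W * (1 / S.N q) * ((Fintype.card k : ℝ) ^ D.card / S.nm D) else 0 := by
      intro q D
      by_cases hqD : S.bl q = j ∧ Good S I D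
      · rw [if_pos hqD]
        refine (stepD S hlab H hX P q hqD.1 D hqD.2).trans (le_of_eq ?_)
        rw [hW]
        have hN : (S.N q : ℝ) ≠ 0 := by
          have := N_pos S q
          positivity
        have hn : (S.nm D : ℝ) ≠ 0 := by
          have := nm_pos S D
          positivity
        rw [← hm, ← hM]
        field_simp
      · rw [if_neg hqD]
        refine le_of_eq (Finset.sum_eq_zero fun r _ => ?_)
        unfold HH
        rw [if_neg hqD]
    have h2 : ∀ q D, 0 ≤ W * (1 / S.N q) * ((Fintype.card k : ℝ) ^ D.card / S.nm D) := by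
      intro q D; positivity
    calc _ ≤ ∑ q ∈ P, ∑ D ∈ P.powerset, (if S.bl q = j ∧ Good S I D then
          W * (1 / S.N q) * ((Fintype.card k : ℝ) ^ D.card / S.nm D) else 0) :=
          Finset.sum_le_sum fun q _ => Finset.sum_le_sum fun D _ => h1 q D
      _ ≤ ∑ q ∈ P with S.bl q = j, ∑ D ∈ P.powerset with Good S I D,
          W * (1 / S.N q) * ((Fintype.card k : ℝ) ^ D.card / S.nm D) := by
          rw [Finset.sum_filter]
          refine Finset.sum_le_sum fun q _ => ?_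
          by_cases hq : S.bl q = j
          · rw [if_pos hq, Finset.sum_filter]
            refine Finset.sum_le_sum fun D _ => ?_
            simp only [hq, true_and]
            exact le_rfl
          · rw [if_neg hq]
            refine le_of_eq (Finset.sum_eq_zero fun D _ => ?_)
            rw [if_neg (fun h => hq h.1)]
      _ ≤ _ := by
          refine le_trans (Finset.sum_le_sum (g := fun q => ∑ D ∈ (S.below I).powerset,
            W * (1 / S.N q) * ((Fintype.card k : ℝ) ^ D.card / S.nm D)) ?_)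
            (Finset.sum_le_sum_of_subset_of_nonneg ?_ ?_)
          · intro q _
            refine Finset.sum_le_sum_of_subset_of_nonneg ?_ fun D _ _ => h2 q D
            intro D hD
            rw [mem_filter] at hD
            rw [mem_powerset]
            intro q' hq'
            rw [mem_below]
            have h3 : S.N q' < 2 ^ I := lt_of_le_of_lt (le_nm S hq') hD.2.2.2
            unfold Sys.bl
            exact Nat.log_lt_of_lt_pow (N_pos S q').ne' h3
          · intro q hq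
            rw [mem_filter] at hq
            rw [mem_blk]; exact hq.2
          · intro q _ _
            exact Finset.sum_nonneg fun D _ => h2 q D
  refine hE.trans ?_
  have hF : ∑ q ∈ S.blk j, ∑ D ∈ (S.below I).powerset,
        W * (1 / S.N q) * ((Fintype.card k : ℝ) ^ D.card / S.nm D) =
      W * ((∑ q ∈ S.blk j, (1 : ℝ) / S.N q) *
        ∑ D ∈ (S.below I).powerset, (Fintype.card k : ℝ) ^ D.card / S.nm D) := by
    rw [Finset.sum_mul_sum, Finset.mul_sum]
    refine Finset.sum_congr rfl fun q _ => ?_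
    rw [Finset.mul_sum]
    exact Finset.sum_congr rfl fun D _ => by ring
  rw [hF]
  have hche := H.che j hj
  have hD := Dsum hdec H I
  have hK0 : (0 : ℝ) ≤ K := Nat.cast_nonneg _
  have hprod : (∑ q ∈ S.blk j, (1 : ℝ) / S.N q) *
        ∑ D ∈ (S.below I).powerset, (Fintype.card k : ℝ) ^ D.card / S.nm D ≤
      (K / j) * (Real.exp (Fintype.card k * K) * ((I : ℝ) + 2) ^ (Fintype.card k * K)) :=
    mul_le_mul hche hD (Finset.sum_nonneg fun D _ => by positivity) (by positivity)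
  refine (mul_le_mul_of_nonneg_left hprod hW0).trans ?_
  have hc0K : c0 ≤ K' := by
    refine (Nat.le_ceil c0).trans ?_
    rw [hK']
    exact_mod_cast le_max_left _ _
  have hpow : ((I : ℝ) + 2) ^ (K + Fintype.card k * K) ≤ ((I : ℝ) + 2) ^ K' :=
    pow_le_pow_right₀ (by linarith) (le_max_right _ _)
  have hc00 : 0 ≤ c0 := by rw [hc0]; positivity
  calc W * ((K / j) * (Real.exp (Fintype.card k * K) * ((I : ℝ) + 2) ^ (Fintype.card k * K)))
      = (c0 * ((I : ℝ) + 2) ^ (K + Fintype.card k * K)) * (1 / j * m * M * (X * g X)) := by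
        rw [hW, hc0, pow_add]; ring
    _ ≤ (K' * ((I : ℝ) + 2) ^ K') * (1 / j * m * M * (X * g X)) := by
        refine mul_le_mul_of_nonneg_right ?_ (by positivity)
        exact mul_le_mul hc0K hpow (by positivity) (Nat.cast_nonneg _)
    _ = _ := by ring

end final

end Pool.Agent.Helper54.M3.QSML

namespace Pool.Agent.Helper54.M3

open Pool.Agent.Helper17.PP

/-- **Q_SML** from `C_LAB`, `C_DEC`, `Q_PSM`. -/
theorem q_sml_of (hlab : C_LAB) (hdec : C_DEC) (hpsm : Pool.Agent.Helper11.M3.Q_PSM) :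
    Pool.Agent.Helper11.M3.Q_SML :=
  QSML.q_sml hlab hdec hpsm

/-- **Q_SML** from `Q_PSM`. -/
theorem q_sml (hpsm : Pool.Agent.Helper11.M3.Q_PSM) : Pool.Agent.Helper11.M3.Q_SML :=
  q_sml_of Pool.Agent.Helper83.PP.c_lab Pool.Agent.Helper22.PP.c_dec hpsm

end Pool.Agent.Helper54.M3
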